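import Pool.Agent.Helper53.CTR.Goals

/-! # Packet CTR-EE: the numeric step is the abstract step -/

set_option autoImplicit false

namespace Pool.Agent.Helper93.CTR

open Pool.Agent.Helper53.CTR
open Pool.Agent.Helper1.TE (Gad app GoalCT)
open Pool.Agent.Helper65.LinSpace (dig tab ifz eq01 capPow tab_lt dig_lt)

theorem capPow_eq' {q i B : ℕ} (h : q ^ i ≤ B) : capPow q i B = q ^ i := by
  unfold capPow
  exact min_eq_left (by omega)

/-- `al` shifts of a content. -/
def rd (b W al p : ℕ) (z : ℕ × ℕ) : ℕ × ℕ :=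
  (shN (cC b W) (4 * b) (24 * b) (Rb b) al p z.1, z.2)

theorem shN_lt (b W al p X : ℕ) (hR : 1 ≤ Rb b) :
    shN (cC b W) (4 * b) (24 * b) (Rb b) al p X < Pb b ^ (4 * b + 2) := by
  unfold shN
  exact tab_lt fun i _ => Nat.mod_lt _ (by omega)

theorem shl_rd (hS : GoalSHN) (b W al p : ℕ) (z : ℕ × ℕ) (hR : 1 ≤ Rb b)
    (hz : z.1 < Pb b ^ (4 * b + 2)) :
    shl (gadC b W) (List.replicate al p) z = rd b W al p z :=
  hS (cC b W) (4 * b) (24 * b) (Rb b) (2 ^ b) hR al p z hz

theorem rd_zero (hS : GoalSHN) (b W p : ℕ) (z : ℕ × ℕ) (hR : 1 ≤ Rb b)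
    (hz : z.1 < Pb b ^ (4 * b + 2)) : rd b W 0 p z = z :=
  (shl_rd hS b W 0 p z hR hz).symm

/-- The registers after the reads. -/
def aft (b W al be a y : ℕ) (D : De) (C : ℕ → ℕ × ℕ) : ℕ → ℕ × ℕ :=
  Function.update (Function.update C D.e (rd b W al a (C D.e))) D.f
    (rd b W be y (Function.update C D.e (rd b W al a (C D.e)) D.f))

theorem core (hCT : GoalCT) (hEC : GoalEC) (hSET : GoalSET) (hPB : GoalPB)
    {h q b c X S : ℕ} (hh : 1 ≤ h) (hq : 1 ≤ q) (hb : 1 ≤ b) (hc : c ≤ b)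
    {D : De} {a y : ℕ} (he : D.e ≤ 2 * q + 2) (hf : D.f ≤ 2 * q + 2) (hi : D.i ≤ 2 * q + 2)
    (hX : X < (2 ^ Eb b) ^ (2 * q + 3)) (hS : S < (2 ^ Fb h b) ^ (2 * q + 3))
    (z : ℕ × ℕ) (hz1 : z.1 < Pb b ^ (4 * b + 2)) (hz2 : z.2 < 2 ^ Fb h b) :
    toF h b (setD (2 ^ Et h q b c) (Eb b) (2 * q + 3) (bigR q b (2 ^ Et h q b c) D a y X) D.i z.1)
      (setD (2 ^ Et h q b c) (Fb h b) (2 * q + 3) S D.i z.2) =
      Function.update (aft b (2 ^ Et h q b c) (alK D.k) (beK D.k) a y D (toF h b X S)) D.i z ∧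
    setD (2 ^ Et h q b c) (Eb b) (2 * q + 3) (bigR q b (2 ^ Et h q b c) D a y X) D.i z.1 <
      (2 ^ Eb b) ^ (2 * q + 3) ∧
    setD (2 ^ Et h q b c) (Fb h b) (2 * q + 3) S D.i z.2 < (2 ^ Fb h b) ^ (2 * q + 3) := by
  obtain ⟨p1, p2, p3, p4, p5, p6, p7, -, -, -, -, -, -, p14, -⟩ := hPB h q b c hh hq hb hc
  set W := 2 ^ Et h q b c with hW
  obtain ⟨hsh, -⟩ := hEC hCT b W p1 p14
  have hg : ∀ X i, getD W (Eb b) X i = dig (2 ^ Eb b) X i := by
    intro X i
    unfold getD
    rw [capPow_eq' p6]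
  have hlt : ∀ al p X, shN (cC b W) (4 * b) (24 * b) (Rb b) al p X < 2 ^ Eb b := fun al p X =>
    (shN_lt b W al p X p1).trans_le p2
  obtain ⟨r1, r2, -⟩ := hSET hCT W (Eb b) (2 * q + 3) X D.e
    (shN (cC b W) (4 * b) (24 * b) (Rb b) (alK D.k) a (dig (2 ^ Eb b) X D.e)) p4 p6 hX
    (by omega) (hlt _ _ _)
  set R1 := setD W (Eb b) (2 * q + 3) X D.e
    (shN (cC b W) (4 * b) (24 * b) (Rb b) (alK D.k) a (dig (2 ^ Eb b) X D.e)) with hR1
  obtain ⟨s1, s2, -⟩ := hSET hCT W (Eb b) (2 * q + 3) R1 D.f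
    (shN (cC b W) (4 * b) (24 * b) (Rb b) (beK D.k) y (dig (2 ^ Eb b) R1 D.f)) p4 p6 r1
    (by omega) (hlt _ _ _)
  have hbR : bigR q b W D a y X = setD W (Eb b) (2 * q + 3) R1 D.f
      (shN (cC b W) (4 * b) (24 * b) (Rb b) (beK D.k) y (dig (2 ^ Eb b) R1 D.f)) := by
    unfold bigR
    simp only [hsh, hg]
    rfl
  rw [← hbR] at s1 s2
  obtain ⟨t1, t2, -⟩ := hSET hCT W (Eb b) (2 * q + 3) (bigR q b W D a y X) D.i z.1 p4 p6 s1
    (by omega) (hz1.trans_le p2)
  obtain ⟨u1, u2, -⟩ := hSET hCT W (Fb h b) (2 * q + 3) S D.i z.2 p5 p7 hS (by omega) hz2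
  refine ⟨?_, t1, u1⟩
  funext j
  unfold toF aft
  rw [t2 j, u2 j]
  by_cases hji : j = D.i
  · subst hji
    rw [if_pos rfl, if_pos rfl, Function.update_self]
  · rw [if_neg hji, if_neg hji, Function.update_of_ne hji, s2 j]
    by_cases hjf : j = D.f
    · subst hjf
      rw [if_pos rfl, Function.update_self, r2]
      by_cases hfe : D.f = D.e
      · rw [if_pos hfe, hfe, Function.update_self]
        rfl
      · rw [if_neg hfe, Function.update_of_ne hfe]
        rfl
    · rw [if_neg hjf, Function.update_of_ne hjf, r2 j]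
      by_cases hje : j = D.e
      · subst hje
        rw [if_pos rfl, Function.update_self]
        rfl
      · rw [if_neg hje, Function.update_of_ne hje]

/-- The conclusion for an active step. -/
theorem fin (hCT : GoalCT) (hEC : GoalEC) (hSET : GoalSET) (hPB : GoalPB)
    {r : ℕ → ℕ → ℕ → ℕ} {h q b c X S A t : ℕ} (hh : 1 ≤ h) (hq : 1 ≤ q) (hb : 1 ≤ b) (hc : c ≤ b)
    {D : De} {a y : ℕ} (he : D.e ≤ 2 * q + 2) (hf : D.f ≤ 2 * q + 2) (hi : D.i ≤ 2 * q + 2)
    (hX : X < (2 ^ Eb b) ^ (2 * q + 3)) (hS : S < (2 ^ Fb h b) ^ (2 * q + 3))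
    (hact : actK D.k = 1)
    (hT : bigT b c (2 ^ Et h q b c) D a t X A =
      apT b (2 ^ Et h q b c) D.T (valK D.k c a A t) (getD (2 ^ Et h q b c) (Eb b) X D.i))
    (hA : bigA c (2 ^ Et h q b c) D a A = A)
    (hex : exec (gadC b (2 ^ Et h q b c)) (fun v => eq01 v 1) r c D a y (toF h b X S, A) =
      (app (gadC b (2 ^ Et h q b c)) (fun v => eq01 v 1) D.T (valK D.k c a A t)
        (toF h b X S D.i)).map fun z =>
        (Function.update (aft b (2 ^ Et h q b c) (alK D.k) (beK D.k) a y D (toF h b X S))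
          D.i z, A)) :
    (bigT b c (2 ^ Et h q b c) D a t X A = 0 →
      exec (gadC b (2 ^ Et h q b c)) (fun v => eq01 v 1) r c D a y (toF h b X S, A) = none) ∧
    (bigT b c (2 ^ Et h q b c) D a t X A ≠ 0 → ∃ C',
      exec (gadC b (2 ^ Et h q b c)) (fun v => eq01 v 1) r c D a y (toF h b X S, A) =
        some (C', bigA c (2 ^ Et h q b c) D a A) ∧
      ((∀ j ≤ 2 * q + 2, (C' j).1 < Pb b ^ (4 * b + 2) ∧ (C' j).2 < 2 ^ Fb h b) →
        toF h b (bigX h q b c (2 ^ Et h q b c) D a y t X S A)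
          (bigS h q b c (2 ^ Et h q b c) D a t X S A) = C' ∧
        bigX h q b c (2 ^ Et h q b c) D a y t X S A < (2 ^ Eb b) ^ (2 * q + 3) ∧
        bigS h q b c (2 ^ Et h q b c) D a t X S A < (2 ^ Fb h b) ^ (2 * q + 3))) := by
  obtain ⟨p1, -, -, -, -, p6, p7, -, -, -, -, -, -, p14, -⟩ := hPB h q b c hh hq hb hc
  obtain ⟨-, happ⟩ := hEC hCT b (2 ^ Et h q b c) p1 p14
  have hg1 : getD (2 ^ Et h q b c) (Eb b) X D.i = (toF h b X S D.i).1 := by
    unfold getD toF
    rw [capPow_eq' p6]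
  have hg2 : getD (2 ^ Et h q b c) (Fb h b) S D.i = (toF h b X S D.i).2 := by
    unfold getD toF
    rw [capPow_eq' p7]
  rw [happ] at hex
  rw [hT, hg1, hA]
  refine ⟨fun h0 => ?_, fun h0 => ?_⟩
  · rw [hex, if_pos h0]
    rfl
  · rw [if_neg h0, Option.map_some] at hex
    refine ⟨_, hex, fun hv => ?_⟩
    have hvi := hv D.i hi
    rw [Function.update_self] at hvi
    have hc1 := core hCT hEC hSET hPB hh hq hb hc (a := a) (y := y) he hf hi hX hS _ hvi.1 hvi.2
    have e1 : bigX h q b c (2 ^ Et h q b c) D a y t X S A =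
        setD (2 ^ Et h q b c) (Eb b) (2 * q + 3) (bigR q b (2 ^ Et h q b c) D a y X) D.i
          (apX b (2 ^ Et h q b c) D.T (valK D.k c a A t) (toF h b X S D.i).1
            (toF h b X S D.i).2) := by
      unfold bigX
      rw [hact, hg1, hg2]
      rfl
    have e2 : bigS h q b c (2 ^ Et h q b c) D a t X S A =
        setD (2 ^ Et h q b c) (Fb h b) (2 * q + 3) S D.i
          (apS b (2 ^ Et h q b c) D.T (valK D.k c a A t) (toF h b X S D.i).1
            (toF h b X S D.i).2) := by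
      unfold bigS
      rw [hact, hg1, hg2]
      rfl
    rw [e1, e2]
    exact hc1

/-- **EE.** -/
theorem gEE : GoalEE := by
  intro hCT hSHN hEC hSET hPB r h q b c V a y t X S A D hh hq hb hc hWF hX hS hdig ht0 ht4
  obtain ⟨p1, -, -, -, -, -, -, -, -, p10, -⟩ := hPB h q b c hh hq hb hc
  have hC : ∀ j, (toF h b X S j).1 < Pb b ^ (4 * b + 2) := hdig
  have hcap : capPow 2 c (2 ^ Et h q b c) = 2 ^ c :=
    capPow_eq' ((Nat.pow_le_pow_right (by norm_num) hc).trans p10)
  have hk := hWF.hk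
  have he := hWF.he
  have hf := hWF.hf
  have hsh1 : ∀ p z, (gadC b (2 ^ Et h q b c)).sh p z = rd b (2 ^ Et h q b c) 1 p z :=
    fun _ _ => rfl
  have hz : ∀ p z, z.1 < Pb b ^ (4 * b + 2) → rd b (2 ^ Et h q b c) 0 p z = z := fun p z hz =>
    rd_zero hSHN b _ p z p1 hz
  have hi : D.k ≠ 5 → D.k ≠ 7 → D.i ≤ 2 * q + 2 := by
    intro h5 h7
    rcases hWF.hi with h1 | h1 | h1
    · exact absurd h1.1 h5
    · exact absurd h1.1 h7
    · exact h1.2.2
  have cases : D.k = 0 ∨ D.k = 1 ∨ D.k = 2 ∨ D.k = 3 ∨ D.k = 4 ∨ D.k = 5 ∨ D.k = 6 ∨ D.k = 7 := by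
    omega
  -- no reads
  have aft00 : aft b (2 ^ Et h q b c) 0 0 a y D (toF h b X S) = toF h b X S := by
    unfold aft
    rw [hz _ _ (hC _), Function.update_eq_self, hz _ _ (hC _), Function.update_eq_self]
  have idleC : actK D.k = 0 → exec (gadC b (2 ^ Et h q b c)) (fun v => eq01 v 1) r c D a y
      (toF h b X S, A) = some (toF h b X S, bigA c (2 ^ Et h q b c) D a A) →
      (bigT b c (2 ^ Et h q b c) D a t X A = 0 →
      exec (gadC b (2 ^ Et h q b c)) (fun v => eq01 v 1) r c D a y (toF h b X S, A) = none) ∧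
    (bigT b c (2 ^ Et h q b c) D a t X A ≠ 0 → ∃ C',
      exec (gadC b (2 ^ Et h q b c)) (fun v => eq01 v 1) r c D a y (toF h b X S, A) =
        some (C', bigA c (2 ^ Et h q b c) D a A) ∧
      ((∀ j ≤ 2 * q + 2, (C' j).1 < Pb b ^ (4 * b + 2) ∧ (C' j).2 < 2 ^ Fb h b) →
        toF h b (bigX h q b c (2 ^ Et h q b c) D a y t X S A)
          (bigS h q b c (2 ^ Et h q b c) D a t X S A) = C' ∧
        bigX h q b c (2 ^ Et h q b c) D a y t X S A < (2 ^ Eb b) ^ (2 * q + 3) ∧
        bigS h q b c (2 ^ Et h q b c) D a t X S A < (2 ^ Fb h b) ^ (2 * q + 3))) := by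
    intro h0 hex
    have e0 : bigT b c (2 ^ Et h q b c) D a t X A = 1 := by
      unfold bigT
      rw [h0]
      rfl
    have e1 : bigX h q b c (2 ^ Et h q b c) D a y t X S A = X := by
      unfold bigX
      rw [h0]
      rfl
    have e2 : bigS h q b c (2 ^ Et h q b c) D a t X S A = S := by
      unfold bigS
      rw [h0]
      rfl
    rw [e0, e1, e2]
    exact ⟨fun h1 => absurd h1 (by norm_num), fun _ => ⟨_, hex, fun _ => ⟨rfl, hX, hS⟩⟩⟩
  rcases cases with k0 | k0 | k0 | k0 | k0 | k0 | k0 | k0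
  · -- 0
    have hv : valK D.k c a A t = r D.v (A % 2 ^ c) 0 := by
      rw [k0, ← ht0 k0]
      simp [valK, ifz, eq01]
    refine fin hCT hEC hSET hPB hh hq hb hc he hf (hi (by omega) (by omega)) hX hS
      (by rw [k0]; simp [actK, ifz, eq01]) (by unfold bigT; rw [k0]; simp [actK, ifz, eq01])
      (by unfold bigA; rw [k0]; simp [ifz, eq01]) ?_
    rw [hv, k0]
    have hal : alK 0 = 0 := by simp [alK, ifz, eq01]
    have hbe : beK 0 = 0 := by simp [beK, ifz, eq01]
    rw [hal, hbe, aft00]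
    unfold exec
    rw [if_pos k0]
  · -- 1
    refine idleC (by rw [k0]; simp [actK, ifz, eq01]) ?_
    unfold exec bigA
    rw [k0]
    simp [ifz, eq01]
  · -- 2
    have hv : valK D.k c a A t = A % 2 ^ c := by
      rw [k0]
      simp [valK, ifz, eq01]
    refine fin hCT hEC hSET hPB hh hq hb hc he hf (hi (by omega) (by omega)) hX hS
      (by rw [k0]; simp [actK, ifz, eq01]) (by unfold bigT; rw [k0]; simp [actK, ifz, eq01])
      (by unfold bigA; rw [k0]; simp [ifz, eq01]) ?_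
    rw [hv, k0]
    have hal : alK 2 = 0 := by simp [alK, ifz, eq01]
    have hbe : beK 2 = 0 := by simp [beK, ifz, eq01]
    rw [hal, hbe, aft00]
    unfold exec
    rw [if_neg (by omega), if_neg (by omega), if_pos k0]
  · -- 3
    have hv : valK D.k c a A t = a := by
      rw [k0]
      simp [valK, ifz, eq01]
    refine fin hCT hEC hSET hPB hh hq hb hc he hf (hi (by omega) (by omega)) hX hS
      (by rw [k0]; simp [actK, ifz, eq01]) (by unfold bigT; rw [k0]; simp [actK, ifz, eq01])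
      (by unfold bigA; rw [k0]; simp [ifz, eq01]) ?_
    rw [hv, k0]
    have hal : alK 3 = 1 := by simp [alK, ifz, eq01]
    have hbe : beK 3 = 0 := by simp [beK, ifz, eq01]
    have haft : aft b (2 ^ Et h q b c) 1 0 a y D (toF h b X S) =
        Function.update (toF h b X S) D.e (rd b (2 ^ Et h q b c) 1 a (toF h b X S D.e)) := by
      unfold aft
      rw [hz, Function.update_eq_self]
      by_cases hfe : D.f = D.e
      · rw [hfe, Function.update_self]
        exact shN_lt b _ 1 a _ p1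
      · rw [Function.update_of_ne hfe]
        exact hC _
    rw [hal, hbe, haft]
    unfold exec
    rw [if_neg (by omega), if_neg (by omega), if_neg (by omega), if_pos k0]
    rfl
  · -- 4
    have hv : valK D.k c a A t = r D.v a y := by
      rw [k0, ← ht4 (Or.inl k0)]
      simp [valK, ifz, eq01]
    refine fin hCT hEC hSET hPB hh hq hb hc he hf (hi (by omega) (by omega)) hX hS
      (by rw [k0]; simp [actK, ifz, eq01]) (by unfold bigT; rw [k0]; simp [actK, ifz, eq01])
      (by unfold bigA; rw [k0]; simp [ifz, eq01]) ?_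
    rw [hv, k0]
    have hal : alK 4 = 1 := by simp [alK, ifz, eq01]
    have hbe : beK 4 = 3 := by simp [beK, ifz, eq01]
    have hef : D.f ≠ D.e := fun h0 => hWF.hef (Or.inl k0) h0.symm
    rw [hal, hbe]
    unfold exec aft
    rw [if_neg (by omega), if_neg (by omega), if_neg (by omega), if_neg (by omega), if_pos k0,
      Function.update_of_ne hef]
    simp only [shl_rd hSHN b (2 ^ Et h q b c) 3 y _ p1 (hC D.f)]
    rfl
  · -- 5
    refine idleC (by rw [k0]; simp [actK, ifz, eq01]) ?_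
    unfold exec bigA
    rw [k0, hcap]
    simp [ifz, eq01]
  · -- 6
    by_cases htest : a % 2 ^ c = A % 2 ^ c
    · have hv : valK D.k c a A t = r D.v a y := by
        rw [k0, ← ht4 (Or.inr k0)]
        simp [valK, ifz, eq01]
      refine fin hCT hEC hSET hPB hh hq hb hc he hf (hi (by omega) (by omega)) hX hS
        (by rw [k0]; simp [actK, ifz, eq01])
        (by unfold bigT; rw [k0]; simp [actK, ifz, eq01, htest])
        (by unfold bigA; rw [k0]; simp [ifz, eq01]) ?_
      rw [hv, k0]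
      have hal : alK 6 = 6 := by simp [alK, ifz, eq01]
      have hbe : beK 6 = 6 := by simp [beK, ifz, eq01]
      have hef : D.f ≠ D.e := fun h0 => hWF.hef (Or.inr k0) h0.symm
      rw [hal, hbe]
      unfold exec aft
      rw [if_neg (by omega), if_neg (by omega), if_neg (by omega), if_neg (by omega),
        if_neg (by omega), if_neg (by omega), if_pos k0, if_pos htest,
        Function.update_of_ne hef]
      simp only [shl_rd hSHN b (2 ^ Et h q b c) 6 y _ p1 (hC D.f),
        shl_rd hSHN b (2 ^ Et h q b c) 6 a _ p1 (hC D.e)]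
    · have e0 : bigT b c (2 ^ Et h q b c) D a t X A = 0 := by
        unfold bigT
        rw [k0]
        simp [actK, ifz, eq01, htest]
      rw [e0]
      refine ⟨fun _ => ?_, fun h0 => absurd rfl h0⟩
      unfold exec
      rw [if_neg (by omega), if_neg (by omega), if_neg (by omega), if_neg (by omega),
        if_neg (by omega), if_neg (by omega), if_pos k0, if_neg htest]
  · -- 7
    refine idleC (by rw [k0]; simp [actK, ifz, eq01]) ?_
    unfold exec bigA
    rw [k0]
    simp [ifz, eq01]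

end Pool.Agent.Helper93.CTR
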